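import Pool.Agent.Lib_helper52.YG.Defs

set_option autoImplicit false

namespace Pool.Agent.YG

open MeasureTheory ENNReal Set Filter Topology Pool.Agent.EPS

variable {d : ℕ}

/-- powers of the mass -/
theorem t2_pow {c1 c2 c3 κ : ℝ} (w : Wt c1 c2 c3) (t : ℝ≥0∞) (ht : t ≠ ⊤) :
    t⁻¹ * (ENNReal.ofReal κ * (t ^ c1 * t ^ c2 * t ^ c3)) ≤ ENNReal.ofReal κ * t := by
  rcases eq_or_ne t 0 with h0 | h0
  · subst h0
    rw [ENNReal.zero_rpow_of_pos w.a1]
    simp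
  · rw [← ENNReal.rpow_add c1 c2 h0 ht, ← ENNReal.rpow_add (c1 + c2) c3 h0 ht, w.sum]
    have e2 : t ^ (2 : ℝ) = t * t := by
      rw [ENNReal.rpow_two, sq]
    rw [e2]
    have : t⁻¹ * (ENNReal.ofReal κ * (t * t)) = ENNReal.ofReal κ * ((t⁻¹ * t) * t) := by ring
    rw [this, ENNReal.inv_mul_cancel h0 ht, one_mul]

/-- the mass of the reference density -/
theorem bound3 {c1 c2 c3 κ : ℝ} (w : Wt c1 c2 c3) (hY : YG (EuclideanSpace ℝ (Fin d)) c1 c2 c3 κ)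
    (f g h a b c v : EuclideanSpace ℝ (Fin d) → ℝ≥0∞) (hf : Measurable f) (hg : Measurable g)
    (hh : Measurable h) (ha : Measurable a) (hb : Measurable b) (hc : Measurable c)
    (hv : Measurable v) (v1 : ∀ᵐ s, ∫⁻ x, f x * a (s - x) = v s)
    (v2 : ∀ᵐ s, ∫⁻ x, g x * b (s - x) = v s) (v3 : ∀ᵐ s, ∫⁻ x, h x * c (s - x) = v s)
    (v0 : ∫⁻ s, v s = 1) :
    ∫⁻ x, ∫⁻ y, ∫⁻ z, (v (x + y + z))⁻¹ * ((f x * a (y + z)) ^ c1 * (g y * b (x + z)) ^ c2 *
      (h z * c (x + y)) ^ c3) ≤ ENNReal.ofReal κ := by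
  -- the integrand after the substitution
  set G : EuclideanSpace ℝ (Fin d) → EuclideanSpace ℝ (Fin d) → EuclideanSpace ℝ (Fin d) → ℝ≥0∞ :=
    fun x y s => (v s)⁻¹ * ((f x * a (s - x)) ^ c1 * (g y * b (s - y)) ^ c2 *
      (h (s - (x + y)) * c (x + y)) ^ c3) with hG
  have m3 : Measurable fun p : (EuclideanSpace ℝ (Fin d) × EuclideanSpace ℝ (Fin d)) ×
      EuclideanSpace ℝ (Fin d) => G p.1.1 p.2 p.1.2 := by
    simp only [hG]
    fun_prop
  have e1 : ∀ x y, (∫⁻ z, (v (x + y + z))⁻¹ * ((f x * a (y + z)) ^ c1 * (g y * b (x + z)) ^ c2 *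
      (h z * c (x + y)) ^ c3)) = ∫⁻ s, G x y s := by
    intro x y
    rw [← lintegral_sub_right_eq_self (μ := (volume : Measure (EuclideanSpace ℝ (Fin d))))
      (fun z => (v (x + y + z))⁻¹ * ((f x * a (y + z)) ^ c1 * (g y * b (x + z)) ^ c2 *
      (h z * c (x + y)) ^ c3)) (x + y)]
    refine lintegral_congr fun s => ?_
    simp only [hG]
    have s1 : x + y + (s - (x + y)) = s := by abel
    have s2 : y + (s - (x + y)) = s - x := by abel
    have s3 : x + (s - (x + y)) = s - y := by abel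
    rw [s1, s2, s3]
  have e2 : ∀ x, (∫⁻ y, ∫⁻ s, G x y s) = ∫⁻ s, ∫⁻ y, G x y s := by
    intro x
    refine lintegral_lintegral_swap (Measurable.aemeasurable ?_)
    have : Measurable fun p : EuclideanSpace ℝ (Fin d) × EuclideanSpace ℝ (Fin d) =>
        ((x, p.2), p.1) := by fun_prop
    exact m3.comp this
  have e3 : (∫⁻ x, ∫⁻ s, ∫⁻ y, G x y s) = ∫⁻ s, ∫⁻ x, ∫⁻ y, G x y s := by
    refine lintegral_lintegral_swap (Measurable.aemeasurable ?_)
    exact m3.lintegral_prod_right'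
  have e4 : (∫⁻ x, ∫⁻ y, ∫⁻ z, (v (x + y + z))⁻¹ * ((f x * a (y + z)) ^ c1 *
      (g y * b (x + z)) ^ c2 * (h z * c (x + y)) ^ c3)) = ∫⁻ s, ∫⁻ x, ∫⁻ y, G x y s := by
    simp only [e1, e2]
    exact e3
  rw [e4]
  have hfin : ∀ᵐ s, v s < ⊤ := ae_lt_top hv (by rw [v0]; exact ENNReal.one_ne_top)
  have key : ∀ᵐ s, (∫⁻ x, ∫⁻ y, G x y s) ≤ ENNReal.ofReal κ * v s := by
    filter_upwards [v1, v2, v3, hfin] with s h1 h2 h3 h4
    have q := hY (fun x => f x * a (s - x)) (fun y => g y * b (s - y))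
      (fun t => h (s - t) * c t) (by fun_prop) (by fun_prop) (by fun_prop)
    have i3 : (∫⁻ t, h (s - t) * c t) = v s := by
      rw [← h3, ← lintegral_sub_left_eq_self (μ := (volume : Measure (EuclideanSpace ℝ (Fin d))))
        (fun x => h x * c (s - x)) s]
      refine lintegral_congr fun t => ?_
      have s4 : s - (s - t) = t := by abel
      rw [s4]
    rw [h1, h2, i3] at q
    have i4 : (∫⁻ x, ∫⁻ y, G x y s) = (v s)⁻¹ * ∫⁻ x, ∫⁻ y, (f x * a (s - x)) ^ c1 *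
        (g y * b (s - y)) ^ c2 * (h (s - (x + y)) * c (x + y)) ^ c3 := by
      have n3 : Measurable fun p : EuclideanSpace ℝ (Fin d) × EuclideanSpace ℝ (Fin d) =>
          (f p.1 * a (s - p.1)) ^ c1 * (g p.2 * b (s - p.2)) ^ c2 *
            (h (s - (p.1 + p.2)) * c (p.1 + p.2)) ^ c3 := by
        fun_prop
      rw [← lintegral_const_mul _ n3.lintegral_prod_right']
      refine lintegral_congr fun x => ?_
      simp only [hG]
      rw [lintegral_const_mul]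
      exact n3.comp measurable_prodMk_left
    rw [i4]
    calc (v s)⁻¹ * ∫⁻ x, ∫⁻ y, (f x * a (s - x)) ^ c1 *
        (g y * b (s - y)) ^ c2 * (h (s - (x + y)) * c (x + y)) ^ c3
        ≤ (v s)⁻¹ * (ENNReal.ofReal κ * (v s ^ c1 * v s ^ c2 * v s ^ c3)) := by gcongr
      _ ≤ ENNReal.ofReal κ * v s := t2_pow w (v s) h4.ne
  calc (∫⁻ s, ∫⁻ x, ∫⁻ y, G x y s) ≤ ∫⁻ s, ENNReal.ofReal κ * v s := lintegral_mono_ae key
    _ = ENNReal.ofReal κ * ∫⁻ s, v s := lintegral_const_mul _ hv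
    _ = ENNReal.ofReal κ := by rw [v0, mul_one]

end Pool.Agent.YG
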